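import Pool.Agent.H2.ED.Targets

/-!
# Row TRV: functions which are independent on `V` are independent in the directions tangent to `V`
-/

set_option autoImplicit false

open MvPolynomial
open Pool.Agent.H18.HIT Pool.Agent.H18.HX Pool.Agent.H18.VZ
open Pool.Agent.H2.ED

namespace Pool.Agent.H46.ED

section alg

/-- a derivation which vanishes on a transcendence basis vanishes -/
theorem der_zero {k κ : Type} [Field k] [CharZero k] [Field κ] [Algebra k κ] {r : ℕ}
    (htr : Algebra.trdeg k κ = r) (y : Fin r → κ) (hy : AlgebraicIndependent k y)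
    (d : Derivation k κ κ) (hd : ∀ i, d (y i) = 0) : ∀ b, d b = 0 := by
  have hb : IsTranscendenceBasis k y := by
    apply hy.isTranscendenceBasis_of_lift_trdeg_le_of_finite
    simp [htr]
  have halg : Algebra.IsAlgebraic (IntermediateField.adjoin k (Set.range y)) κ :=
    hb.isAlgebraic_field
  have hchar : CharZero (IntermediateField.adjoin k (Set.range y)) :=
    charZero_of_injective_algebraMap (algebraMap k _).injective
  -- the kernel
  have hE : ∀ x ∈ IntermediateField.adjoin k (Set.range y), d x = 0 := by
    intro x hx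
    induction hx using IntermediateField.adjoin_induction with
    | mem x hx =>
      obtain ⟨i, rfl⟩ := hx
      exact hd i
    | algebraMap x => exact d.map_algebraMap x
    | add x z _ _ hx hz => rw [map_add, hx, hz, add_zero]
    | inv x _ hx =>
      by_cases h0 : x = 0
      · rw [h0, inv_zero, map_zero]
      · have h1 : d (x * x⁻¹) = 0 := by
          rw [mul_inv_cancel₀ h0]
          exact d.map_one_eq_zero
        rw [d.leibniz, hx, smul_zero, add_zero, smul_eq_mul] at h1
        exact (mul_eq_zero.1 h1).resolve_left h0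
    | mul x z _ _ hx hz => rw [d.leibniz, hx, hz, smul_zero, smul_zero, add_zero]
  let E := IntermediateField.adjoin k (Set.range y)
  let dE : Derivation E κ κ := Derivation.mk'
    { toFun := d
      map_add' := fun a b => map_add d a b
      map_smul' := fun c a => by
        rw [Algebra.smul_def, d.leibniz, IntermediateField.algebraMap_apply, hE _ c.2,
          smul_zero, add_zero, RingHom.id_apply, smul_eq_mul, Algebra.smul_def,
          IntermediateField.algebraMap_apply] }
    (fun a b => d.leibniz a b)
  intro b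
  have hint : IsIntegral E b := (halg.isAlgebraic b).isIntegral
  have hsep : (minpoly E b).Separable := (minpoly.irreducible hint).separable
  have h1 : dE (Polynomial.aeval b (minpoly E b)) = 0 := by
    rw [minpoly.aeval, map_zero]
  rw [Derivation.map_aeval, smul_eq_mul] at h1
  have h2 := hsep.aeval_derivative_ne_zero (minpoly.aeval E b)
  exact (mul_eq_zero.1 h1).resolve_left h2

end alg

section hmg

variable {ν : ℕ} {k : Type} [Field k]

/-- homogenization with respect to the coordinate `X 1` -/
noncomputable def hmg (p : Po (ν + 2) k) : Po (ν + 2) k :=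
  ∑ t ∈ Finset.range (p.totalDegree + 1), X 1 ^ (p.totalDegree - t) * homogeneousComponent t p

theorem hmg_hom (p : Po (ν + 2) k) : (hmg p).IsHomogeneous p.totalDegree := by
  apply IsHomogeneous.sum
  intro t ht
  have h1 : t ≤ p.totalDegree := Nat.lt_succ_iff.mp (Finset.mem_range.mp ht)
  have h2 := ((isHomogeneous_X k (1 : Fin (ν + 2))).pow (p.totalDegree - t)).mul
    (homogeneousComponent_isHomogeneous t p)
  rwa [one_mul, Nat.sub_add_cancel h1] at h2

theorem aeval_hmg {K : Type} [Field K] [Algebra k K] (p : Po (ν + 2) k) (y : Fin (ν + 2) → K)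
    (hy : y 1 = 1) : aeval y (hmg p) = aeval y p := by
  rw [hmg, map_sum]
  conv_rhs => rw [← sum_homogeneousComponent p, map_sum]
  refine Finset.sum_congr rfl fun t _ => ?_
  rw [map_mul, map_pow, aeval_X, hy, one_pow, one_mul]

theorem dd_X_one (P : Po (ν + 2) k) (j : Fin ν) : dd P j.succ (X 1) = 0 := by
  have h1 : (j.succ.succ : Fin (ν + 2)) ≠ 1 := by
    intro h
    have := congrArg Fin.val h
    simp at this
  have h2 : (0 : Fin (ν + 2)) ≠ 1 := by
    intro h
    have := congrArg Fin.val h
    simp at this
  rw [dd, Derivation.sub_apply, Derivation.smul_apply, Derivation.smul_apply,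
    pderiv_X_of_ne h1.symm, pderiv_X_of_ne h2.symm, smul_zero, smul_zero, sub_zero]

theorem dd_X (P : Po (ν + 2) k) (j j' : Fin ν) :
    dd P j'.succ (X j.succ.succ) = if j' = j then pderiv 0 P else 0 := by
  have h2 : (j.succ.succ : Fin (ν + 2)) ≠ 0 := Fin.succ_ne_zero _
  rw [dd, Derivation.sub_apply, Derivation.smul_apply, Derivation.smul_apply,
    pderiv_X_of_ne h2, smul_zero, sub_zero]
  split_ifs with h
  · rw [h, pderiv_X_self, smul_eq_mul, mul_one]
  · have h1 : (j.succ.succ : Fin (ν + 2)) ≠ j'.succ.succ := by
      intro h3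
      exact h (Fin.succ_injective _ (Fin.succ_injective _ h3)).symm
    rw [pderiv_X_of_ne h1, smul_zero]

theorem gr_hmg (P : Po (ν + 2) k) {κ : Type} [Field κ] [Algebra k κ] (η : Fin (ν + 2) → κ)
    (hη : η 1 = 1) (p : Po (ν + 2) k) : gr P η (hmg p) = gr P η p := by
  funext j
  rw [gr, gr, hmg, map_sum, map_sum]
  conv_rhs => rw [← sum_homogeneousComponent p, map_sum, map_sum]
  refine Finset.sum_congr rfl fun t _ => ?_
  rw [Derivation.leibniz, Derivation.leibniz_pow, dd_X_one, smul_zero, smul_zero, smul_zero,
    add_zero, smul_eq_mul, map_mul, map_pow, aeval_X, hη, one_pow, one_mul]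

end hmg

theorem pf_TRV : Pool.Agent.H2.ED.T_TRV := by
  intro ν r₀ r k K κ _ _ _ _ _ _ P V ξ η R ρ D hyp hPV hgp hgv hl hP0 hD y hy v hv1 hv2
  classical
  -- the derivation over `ρ`
  let d : R → κ := fun z => ∑ j, v j * ρ (D j z)
  have d_add : ∀ z w, d (z + w) = d z + d w := by
    intro z w
    simp only [d, map_add, mul_add, Finset.sum_add_distrib]
  have d_mul : ∀ z w, d (z * w) = ρ z * d w + ρ w * d z := by
    intro z w
    simp only [d, Finset.mul_sum, ← Finset.sum_add_distrib]
    refine Finset.sum_congr rfl fun j _ => ?_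
    rw [Derivation.leibniz, smul_eq_mul, smul_eq_mul, map_add, map_mul, map_mul]
    ring
  have d_smul : ∀ (c : k) z, d (c • z) = c • d z := by
    intro c z
    simp only [d, Derivation.map_smul, map_smul, Finset.smul_sum]
    refine Finset.sum_congr rfl fun j _ => ?_
    rw [mul_smul_comm]
  let zp : Po (ν + 2) k → R := fun p => ⟨aeval ξ p, hl.mem p⟩
  have hzp : ∀ p, ρ (zp p) = aeval η p := fun p => hl.val p (hl.mem p)
  have hDz : ∀ j p, D j (zp p) * zp (pderiv 0 P) = zp (dd P j.succ p) := by
    intro j p
    apply Subtype.ext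
    exact hD j p (hl.mem p)
  have dz : ∀ p, d (zp p) * aeval η (pderiv 0 P) = ∑ j, v j * gr P η p j := by
    intro p
    simp only [d]
    rw [Finset.sum_mul]
    refine Finset.sum_congr rfl fun j _ => ?_
    have h1 := congrArg ρ (hDz j p)
    rw [map_mul, hzp, hzp] at h1
    rw [mul_assoc, h1]
    rfl
  have key : ∀ z, ρ z = 0 → d z = 0 := by
    intro z hz
    obtain ⟨p, q, hq, hpq⟩ := hl.frc z
    have h1 : z * zp q = zp p := Subtype.ext hpq
    have h2 : aeval η p = 0 := by
      rw [← hzp, ← h1, map_mul, hz, zero_mul]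
    have h3 : hmg p ∈ V := by
      rw [← hgv.iff _ _ (hmg_hom p), aeval_hmg p η hgv.one]
      exact h2
    have h4 := hv1 _ h3
    rw [gr_hmg P η hgv.one, ← dz] at h4
    have h5 : d (zp p) = 0 := (mul_eq_zero.1 h4).resolve_right hP0
    rw [← h1, d_mul, hz, zero_mul, zero_add, hzp] at h5
    exact (mul_eq_zero.1 h5).resolve_left hq
  have d_sub : ∀ z w, ρ z = ρ w → d z = d w := by
    intro z w h
    have h1 : d (z + (-1 : k) • w) = 0 := by
      apply key
      rw [map_add, map_smul, h, neg_smul, one_smul, add_neg_cancel]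
    rw [d_add, d_smul, neg_smul, one_smul] at h1
    exact add_neg_eq_zero.1 h1
  let g : κ → R := Function.surjInv hl.sur
  have hg : ∀ a, ρ (g a) = a := Function.surjInv_eq hl.sur
  let dl : Derivation k κ κ := Derivation.mk'
    { toFun := fun a => d (g a)
      map_add' := fun a b => by
        rw [← d_add]
        apply d_sub
        rw [map_add, hg, hg, hg]
      map_smul' := fun c a => by
        rw [RingHom.id_apply, ← d_smul]
        apply d_sub
        rw [map_smul, hg, hg] }
    (fun a b => by
      change d (g (a * b)) = a • d (g b) + b • d (g a)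
      have h1 : d (g (a * b)) = d (g a * g b) := by
        apply d_sub
        rw [map_mul, hg, hg, hg]
      rw [h1, d_mul, hg, hg]
      rfl)
  have hdl : ∀ z, dl (ρ z) = d z := by
    intro z
    apply d_sub
    rw [hg]
  have hdl0 : ∀ b, dl b = 0 := der_zero hgv.trd (fun i => ρ (y i)) hy dl fun i => by
    rw [hdl]
    exact hv2 i
  funext j
  have h1 := dz (X j.succ.succ)
  rw [← hdl, hdl0, zero_mul] at h1
  have h2 : ∑ j', v j' * gr P η (X j.succ.succ) j' = v j * aeval η (pderiv 0 P) := by
    rw [Finset.sum_eq_single j]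
    · rw [gr, dd_X, if_pos rfl]
    · intro j' _ hj'
      rw [gr, dd_X, if_neg hj', map_zero, mul_zero]
    · intro h
      exact absurd (Finset.mem_univ j) h
  rw [h2] at h1
  exact (mul_eq_zero.1 h1.symm).resolve_right hP0

end Pool.Agent.H46.ED
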